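import Pool.Agent.W323.PT.Stm

set_option autoImplicit false

namespace Pool.Agent.W540.PT

open Pool.Agent.W323.PT

lemma TT_add (P : Bool → ℕ → Pt) (u : ℤ) : TT P (u + 96) = TT P u := by
  have h1 : (u + 96) % 96 = u % 96 := by omega
  have h2 : (u + 96) % 48 = u % 48 := by omega
  unfold TT
  rw [h1, h2]

theorem cross : S_Conv → S_HexDir → S_LP → S_Cross := by
  intro hC hH hL P hP
  by_contra hn
  have hcyc : Cyc (fun i : ℤ => TT P (4 * i)) := by
    refine ⟨fun i => ?_, fun i j k hij hjk hk => ?_⟩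
    · have : 4 * (i + 24) = 4 * i + 96 := by ring
      show TT P (4 * (i + 24)) = TT P (4 * i)
      rw [this, TT_add]
    · exact hC P hP (4 * i) (4 * j) (4 * k) (by omega) (by omega) (by omega)
  refine hL (fun i : ℤ => TT P (4 * i)) hcyc ?_
  intro t1 t2 t3 t4 t5 t6 h1 h2 h3 h4 h5 h6
  exact (hH P hP t1 t2 t3 t4 t5 t6 h1 h2 h3 h4 h5 h6).resolve_left hn

end Pool.Agent.W540.PT
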